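import Mathlib
import Pool.Agent.Helper22_LLG.Stmt
import Pool.Agent.Helper76_LAG.Near

/-!
# LLG, module STEP: assembly of one round
-/

set_option autoImplicit false

namespace Pool.Agent.LLG.H73

open SimpleGraph Pool.Agent.LAG

/-- An edge whose ends stay near without it gives a short cycle. -/
lemma no_short {V : Type} {G G' : SimpleGraph V} {g r : ℕ} (hB : Big G g) (hr : r + 1 ≤ g)
    (hle : G' ≤ G) {x y : V} (hxy : G.Adj x y) (hn : ¬ G'.Adj x y) (h : near G' r x y) :
    False := by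
  classical
  obtain ⟨p, hp⟩ := h
  have hp' : p.bypass.IsPath := p.bypass_isPath
  have hl : p.bypass.length ≤ r := (p.length_bypass_le_length).trans hp
  have hm : (p.bypass.mapLe hle).IsPath := hp'.mapLe hle
  have he : s(y, x) ∉ (p.bypass.mapLe hle).edges := by
    intro h
    rw [Walk.edges_mapLe_eq_edges] at h
    exact hn (p.bypass.adj_of_mem_edges h).symm
  have hc := Path.cons_isCycle ⟨p.bypass.mapLe hle, hm⟩ hxy.symm he
  have := hB _ _ hc
  simp at this
  omega

/-- Degrees of a disjoint union. -/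
lemma deg_iSup {V : Type} [Fintype V] {T : ℕ} (H : Fin T → SimpleGraph V)
    (hd : ∀ t t', t ≠ t' → Disjoint (H t) (H t')) (v : V) :
    ((⨆ t, H t).neighborSet v).ncard = ∑ t, ((H t).neighborSet v).ncard := by
  classical
  have h1 : (⨆ t, H t).neighborSet v =
      ((Finset.univ.biUnion fun t => ((H t).neighborSet v).toFinset : Finset V) : Set V) := by
    ext w
    simp
  rw [h1, Set.ncard_coe_finset, Finset.card_biUnion]
  · exact Finset.sum_congr rfl fun t _ => (Set.ncard_eq_toFinset_card' _).symm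
  · intro t _ t' _ htt
    refine Finset.disjoint_left.2 ?_
    intro w hw hw'
    simp only [Set.mem_toFinset, mem_neighborSet] at hw hw'
    have := (hd t t' htt).le_bot
    exact (this (show (H t ⊓ H t').Adj v w from ⟨hw, hw'⟩))

theorem step (hMatch : MatchStmt) (hJed : JedStmt) (hMach : MachStmt) : StepStmt := by
  classical
  intro k T g q hR hGood V _ A R Q hS hreg
  obtain ⟨hTk, b, m, s, h, hH, n, a, ℓ, Tm, L, Nc, η, hg, hh, hNL, hNE, hm, hNM⟩ := hR
  have hS1 : Stt A R Q k (2 * h) q :=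
    ⟨hS.le, hS.m2, hS.m3, hS.big.mono hg, hS.deg, hS.sep, hS.bal⟩
  have hS2 : Stt A R Q k 4100 q :=
    ⟨hS.le, hS.m2, hS.m3, hS.big.mono (by omega), hS.deg, hS.sep, hS.bal⟩
  obtain ⟨H, Z, hHR, hHd, hH4, hHZ, hHs, hHb, hHh, hZ, hZQ⟩ :=
    hMatch V A R Q k T b m s q h (2 * hH) n η hNL hNE hm hS1 hreg
  -- the graph `P`
  set P : SimpleGraph V := ⨆ t, H t with hP
  have hPR : P ≤ R := iSup_le hHR
  have hRA : R ≤ A := hS.le
  have hdegP : ∀ v, (P.neighborSet v).ncard = ∑ t, ((H t).neighborSet v).ncard :=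
    fun v => deg_iSup H hHd v
  obtain ⟨J, hJle, hJZ, hJJ, hJdeg⟩ := hJed V A R P Z k (2 * T) hRA hPR (by omega) hreg
    (by
      intro v hv
      rw [hdegP, Finset.sum_congr rfl fun t _ => hHZ v hv t]
      simp
      ring)
    (by
      intro v
      rw [hdegP]
      have := hHs v
      omega)
    (by
      intro v
      rw [hdegP]
      calc ∑ t, ((H t).neighborSet v).ncard ≤ ∑ _t : Fin T, 4 :=
            Finset.sum_le_sum fun t _ => hH4 t v
        _ = 2 * (2 * T) := by simp; ring)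
    hZ
  obtain ⟨F, N, hFP, hF, hNP, hFN, hNfar, hNN, hNball⟩ :=
    hMach V A R Q Z k T q hH n a ℓ Tm L Nc H hNM hS2 hHR hHd hH4 hHb hHh hZ hZQ
  rw [← hP] at hNP hFN
  have hJR : J ≤ R := hJle.trans sdiff_le
  have hNR : N ≤ R := hNP.trans hPR
  have hJA : J ≤ A := hJR.trans hRA
  have hNA : N ≤ A := hNR.trans hRA
  -- the new state
  set A' : SimpleGraph V := A \ (P ⊔ J) with hA'
  set R' : SimpleGraph V := R \ (P ⊔ J) with hR'
  set Q' : Set V := Q ∪ ({u | ∃ w, N.Adj u w} ∪ {u | ∃ w, J.Adj u w}) with hQ'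
  have hA'A : A' ≤ A := sdiff_le
  have hR'R : R' ≤ R := sdiff_le
  have hR'A' : R' ≤ A' := sdiff_le_sdiff_right hRA
  have hA'N : A' ≤ A \ N := sdiff_le_sdiff_left (hNP.trans le_sup_left)
  have hMM : A' \ R' = A \ R := by
    ext x y
    simp only [hA', hR', sdiff_adj, sup_adj]
    constructor
    · rintro ⟨⟨h1, h2⟩, h3⟩
      exact ⟨h1, fun h4 => h3 ⟨h4, h2⟩⟩
    · rintro ⟨h1, h2⟩
      exact ⟨⟨h1, fun h3 => h2 (h3.elim (fun h => hPR h) (fun h => hJR h))⟩, fun h3 => h2 h3.1⟩
  have hbigA : Big A 4100 := hS2.big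
  have hM2 : ∀ a b, (A \ R).Reachable a b → near A 2 a b :=
    fun a b hab => near_le sdiff_le (hS.m2 a b hab)
  have hJnot : ∀ x y, J.Adj x y → ¬ A'.Adj x y := fun x y h1 h2 => h2.2 (Or.inr h1)
  have hNnot : ∀ x y, N.Adj x y → ¬ A'.Adj x y := fun x y h1 h2 => h2.2 (Or.inl (hNP h1))
  -- distances
  have dQJ : ∀ x ∈ Q, ∀ y w, J.Adj y w → ¬ near A 89 x y := by
    intro x hx y w hyw h1
    obtain ⟨z, hz, hyz⟩ := hJZ y w hyw
    exact hZQ z hz x hx (near_symm (near_trans h1 hyz))
  have dQN : ∀ x ∈ Q, ∀ y w, N.Adj y w → ¬ near A 88 x y := by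
    intro x hx y w hyw h1
    exact (hNfar y w hyw).1 x hx (near_symm h1)
  have dJN : ∀ x v y w, J.Adj x v → N.Adj y w → ¬ near A 89 x y := by
    intro x v y w hxv hyw h1
    obtain ⟨z, hz, hxz⟩ := hJZ x v hxv
    exact (hNfar y w hyw).2 z hz (near_trans (near_symm h1) hxz)
  have dJJ : ∀ x v y w, J.Adj x v → J.Adj y w → x ≠ y → ¬ near A' 1990 x y := by
    intro x v y w hxv hyw hxy h1
    have h2 := hJJ x v y w hxv hyw (near_le hA'A h1)
    rw [Sym2.eq_iff] at h2
    rcases h2 with ⟨h3, _⟩ | ⟨h3, h4⟩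
    · exact hxy h3
    · subst h4
      exact no_short hbigA (by omega) hA'A (hJA hxv) (hJnot _ _ hxv) h1
  have dNN : ∀ x v y w, N.Adj x v → N.Adj y w → x ≠ y → ¬ near A' 88 x y := by
    intro x v y w hxv hyw hxy h1
    by_cases h2 : s(x, v) = s(y, w)
    · rw [Sym2.eq_iff] at h2
      rcases h2 with ⟨h3, _⟩ | ⟨h3, h4⟩
      · exact hxy h3
      · subst h4
        exact no_short hbigA (by omega) hA'A (hNA hxv) (hNnot _ _ hxv) h1
    · exact hNN x v y w hxv hyw h2 (near_le hA'A h1)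
  have hS' : Stt A' R' Q' (k - 2 * T) g (q + 3) := by
    refine ⟨hR'A', ?_, ?_, hS.big.le hA'A, ?_, ?_, ?_⟩
    · rw [hMM]; exact hS.m2
    · rw [hMM]; exact hS.m3
    · intro v
      have := hJdeg v
      have h2 : 2 * k - 2 * (2 * T) = 2 * (k - 2 * T) := by omega
      rw [← h2]
      exact this
    · rintro x (hx | ⟨v, hx⟩ | ⟨v, hx⟩) y (hy | ⟨w, hy⟩ | ⟨w, hy⟩) hxy h1
      · exact hS.sep x hx y hy hxy (near_le hA'A h1)
      · exact dQN x hx y w hy (near_mono (by omega) (near_le hA'A h1))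
      · exact dQJ x hx y w hy (near_mono (by omega) (near_le hA'A h1))
      · exact dQN y hy x v hx (near_mono (by omega) (near_symm (near_le hA'A h1)))
      · exact dNN x v y w hx hy hxy (near_mono (by omega) h1)
      · exact dJN y w x v hy hx (near_mono (by omega) (near_symm (near_le hA'A h1)))
      · exact dQJ y hy x v hx (near_mono (by omega) (near_symm (near_le hA'A h1)))
      · exact dJN x v y w hx hy (near_mono (by omega) (near_le hA'A h1))
      · exact dJJ x v y w hx hy hxy (near_mono (by omega) h1)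
    · intro v
      have hsub : {x | x ∈ Q' ∧ near A' 93 x v} ⊆ {x | x ∈ Q ∧ near A 93 x v} ∪
          ({u | (∃ w, N.Adj u w) ∧ near (A \ N) 93 u v} ∪
            {u | (∃ w, J.Adj u w) ∧ near A' 93 u v}) := by
        rintro x ⟨hx | hx | hx, h1⟩
        · exact Or.inl ⟨hx, near_le hA'A h1⟩
        · exact Or.inr (Or.inl ⟨hx, near_le hA'N h1⟩)
        · exact Or.inr (Or.inr ⟨hx, h1⟩)
      have h1 := Set.ncard_le_ncard hsub (Set.toFinite _)
      have h2 := Set.ncard_union_le {x | x ∈ Q ∧ near A 93 x v}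
        ({u | (∃ w, N.Adj u w) ∧ near (A \ N) 93 u v} ∪ {u | (∃ w, J.Adj u w) ∧ near A' 93 u v})
      have h3 := Set.ncard_union_le {u | (∃ w, N.Adj u w) ∧ near (A \ N) 93 u v}
        {u | (∃ w, J.Adj u w) ∧ near A' 93 u v}
      have h4 := hS.bal v
      have h5 := hNball v
      have h6 : {u | (∃ w, J.Adj u w) ∧ near A' 93 u v}.ncard ≤ 1 := by
        rw [Set.ncard_le_one (Set.toFinite _)]
        rintro x ⟨⟨w, hx⟩, hxv⟩ y ⟨⟨w', hy⟩, hyv⟩
        by_contra hxy
        exact dJJ x w y w' hx hy hxy (near_mono (by omega) (near_trans hxv (near_symm hyv)))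
      omega
  obtain ⟨F', N', hF', hN'R', hFN', hN'Q, hN'N⟩ := hGood V A' R' Q' hS'
  rw [hMM] at hN'Q hN'N
  have hk : 2 * T + (k - 2 * T) = k := by omega
  -- the conclusion
  refine ⟨fun i => Fin.append F F' (Fin.cast hk.symm i), J ⊔ N ⊔ N', ?_, ?_, ?_, ?_, ?_⟩
  · have key : ∀ j : Fin (2 * T + (k - 2 * T)), Fin.append F F' j ≤ R ∧
        (Fin.append F F' j).IsAcyclic ∧ ∀ v, ((Fin.append F F' j).neighborSet v).ncard ≤ 2 := by
      intro j
      induction j using Fin.addCases with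
      | left j =>
        rw [Fin.append_left]
        exact ⟨(hFP j).trans hPR, hF j⟩
      | right j =>
        rw [Fin.append_right]
        exact ⟨(hF' j).1.trans hR'R, (hF' j).2⟩
    exact fun i => key _
  · exact sup_le (sup_le hJR hNR) (hN'R'.trans hR'R)
  · have h1 : (⨆ i : Fin k, Fin.append F F' (Fin.cast hk.symm i)) = (⨆ i, F i) ⊔ ⨆ i, F' i := by
      apply le_antisymm
      · refine iSup_le fun i => ?_
        generalize Fin.cast hk.symm i = j
        induction j using Fin.addCases with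
        | left j =>
          simp only [Fin.append_left]
          exact (le_iSup F j).trans le_sup_left
        | right j =>
          simp only [Fin.append_right]
          exact (le_iSup F' j).trans le_sup_right
      · refine sup_le (iSup_le fun j => ?_) (iSup_le fun j => ?_)
        · have := le_iSup (fun i : Fin k => Fin.append F F' (Fin.cast hk.symm i))
            (Fin.cast hk (Fin.castAdd _ j))
          simpa using this
        · have := le_iSup (fun i : Fin k => Fin.append F F' (Fin.cast hk.symm i))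
            (Fin.cast hk (Fin.natAdd _ j))
          simpa using this
    rw [h1]
    have h2 : (⨆ i, F i) ⊔ (⨆ i, F' i) ⊔ (J ⊔ N ⊔ N') =
        (((⨆ i, F i) ⊔ N) ⊔ J) ⊔ ((⨆ i, F' i) ⊔ N') := by
      ac_rfl
    rw [h2, hFN, hFN', hR']
    exact sup_sdiff_cancel_right (sup_le hPR hJR)
  · rintro u v ((h1 | h1) | h1) x hx h2
    · exact dQJ x hx u v h1 (near_mono (by omega) (near_symm (hM2 u x h2)))
    · exact dQN x hx u v h1 (near_mono (by omega) (near_symm (hM2 u x h2)))
    · exact hN'Q u v h1 x (Or.inl hx) h2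
  · rintro u v u' v' ((h1 | h1) | h1) ((h2 | h2) | h2) h3
    · exact hJJ u v u' v' h1 h2 (near_mono (by omega) (hM2 u u' h3))
    · exact absurd (near_mono (by omega) (hM2 u u' h3)) (dJN u v u' v' h1 h2)
    · exact absurd h3.symm (hN'Q u' v' h2 u (Or.inr (Or.inr ⟨v, h1⟩)))
    · exact absurd (near_mono (by omega) (hM2 u' u h3.symm)) (dJN u' v' u v h2 h1)
    · by_contra h4
      exact hNN u v u' v' h1 h2 h4 (near_mono (by omega) (hM2 u u' h3))
    · exact absurd h3.symm (hN'Q u' v' h2 u (Or.inr (Or.inl ⟨v, h1⟩)))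
    · exact absurd h3 (hN'Q u v h1 u' (Or.inr (Or.inr ⟨v', h2⟩)))
    · exact absurd h3 (hN'Q u v h1 u' (Or.inr (Or.inl ⟨v', h2⟩)))
    · exact hN'N u v u' v' h1 h2 h3

end Pool.Agent.LLG.H73
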