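import Mathlib
import Pool.Agent.Helper22_LLG.Stmt

/-!
# LLG, module NUML: numbers of the local lemma of one round
-/

set_option autoImplicit false

namespace Pool.Agent.LLG.H73

open Pool.Agent.LAG

lemma numl_aux (k T L b m n1 lm q : ℕ) (hL : 100 ≤ L) (hk8 : 10 ^ 8 ≤ k) (hkL : k < 2 ^ L)
    (hT4 : 4 ≤ T) (hT : T * (10 ^ 6 * L) ≤ k) (hbn : b = n1 * (2 * k + 3) ^ 3)
    (hmb : m = b * (2 * k + 3) ^ 7) (hn1 : 1 ≤ n1) (hbu : b ≤ 2 ^ (2044 * L))
    (hlm : lm ≤ k ^ 2) (hq : q ≤ k) :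
    NumL k T (2 * T) b m (4000 * L) q n1 lm (1 / (64 * (k : ℝ) ^ 2)) := by
  have hb1 : 1 ≤ b := by
    rw [hbn]
    exact Nat.one_le_iff_ne_zero.2 (Nat.mul_ne_zero (by omega) (pow_ne_zero _ (by omega)))
  have hm1 : 1 ≤ m := by
    rw [hmb]
    exact Nat.one_le_iff_ne_zero.2 (Nat.mul_ne_zero (by omega) (pow_ne_zero _ (by omega)))
  have hT6 : 2 * T ≤ k := by
    have h1 : T * 2 ≤ T * (10 ^ 6 * L) := Nat.mul_le_mul_left _ (by omega)
    omega
  -- real versions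
  have hx : (10 ^ 8 : ℝ) ≤ (k : ℝ) := by exact_mod_cast hk8
  have hx0 : (0 : ℝ) < k := by linarith [show (0 : ℝ) < 10 ^ 8 by norm_num]
  have hL' : (100 : ℝ) ≤ (L : ℝ) := by exact_mod_cast hL
  have hxX : (k : ℝ) ≤ 2 ^ L := by exact_mod_cast hkL.le
  obtain ⟨c, hc⟩ : ∃ c : ℝ, c = ((2 * T : ℕ) : ℝ) := ⟨_, rfl⟩
  have hc8 : (8 : ℝ) ≤ c := by rw [hc]; exact_mod_cast (by omega : 8 ≤ 2 * T)
  have hcx : c ≤ (k : ℝ) := by rw [hc]; exact_mod_cast hT6
  have hcL : 500000 * ((L : ℝ) * c) ≤ k := by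
    rw [hc]
    have : (500000 * (L * (2 * T)) : ℕ) ≤ k := by
      calc 500000 * (L * (2 * T)) = T * (10 ^ 6 * L) := by ring
        _ ≤ k := hT
    exact_mod_cast this
  have hB : (b : ℝ) ≤ 2 ^ (2044 * L) := by exact_mod_cast hbu
  have hb0 : (1 : ℝ) ≤ (b : ℝ) := by exact_mod_cast hb1
  obtain ⟨w, hw⟩ : ∃ w : ℝ, w = 2 * (k : ℝ) + 3 := ⟨_, rfl⟩
  have hwx : 2 * (k : ℝ) ≤ w := by rw [hw]; linarith
  have hw0 : (0 : ℝ) < w := by linarith
  have hbn' : (b : ℝ) = n1 * w ^ 3 := by rw [hbn, hw]; push_cast; ring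
  have hmb' : (m : ℝ) = b * w ^ 7 := by rw [hmb, hw]; push_cast; ring
  have hn0 : (1 : ℝ) ≤ (n1 : ℝ) := by exact_mod_cast hn1
  -- logarithm
  have hlg0 : 0 ≤ Real.log k := Real.log_nonneg (by linarith [show (1 : ℝ) ≤ 10 ^ 8 by norm_num])
  have hlgx : Real.log k ≤ k := (Real.log_le_sub_one_of_pos hx0).trans (by linarith)
  have hlgL : Real.log k ≤ L := by
    have h1 : Real.log k ≤ Real.log (2 ^ L) := Real.log_le_log hx0 hxX
    rw [Real.log_pow] at h1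
    have h2 : Real.log 2 ≤ 1 := by
      have := Real.log_le_sub_one_of_pos (show (0 : ℝ) < 2 by norm_num)
      linarith
    have h3 : (L : ℝ) * Real.log 2 ≤ L * 1 := mul_le_mul_of_nonneg_left h2 (by positivity)
    linarith
  -- powers of two
  have hpow : ∀ a d e : ℕ, a + d * L ≤ e * L → (2 : ℝ) ^ a * 2 ^ (d * L) ≤ 2 ^ (e * L) := by
    intro a d e h
    rw [← pow_add]
    exact pow_le_pow_right₀ (by norm_num) h
  have hX1 : ∀ d : ℕ, (2 : ℝ) ^ (d * L) * 2 ^ L = 2 ^ ((d + 1) * L) := by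
    intro d
    rw [← pow_add]
    congr 1
    ring
  have hX0 : ∀ n : ℕ, (0 : ℝ) < 2 ^ n := fun n => by positivity
  -- the exponential
  obtain ⟨E, hE⟩ : ∃ E : ℝ, E = Real.exp (-((k : ℝ) / (8 * ((2 * T : ℕ) : ℝ)))) := ⟨_, rfl⟩
  have hE0 : 0 < E := by rw [hE]; exact Real.exp_pos _
  have hEX : E * 2 ^ (62500 * L) ≤ 1 := by
    have h1 : ((62500 * L : ℕ) : ℝ) ≤ (k : ℝ) / (8 * ((2 * T : ℕ) : ℝ)) := by
      rw [← hc, le_div_iff₀ (by linarith)]
      push_cast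
      linarith
    have h2 : E ≤ Real.exp (-((62500 * L : ℕ) : ℝ)) := by
      rw [hE]
      exact Real.exp_le_exp.2 (by linarith)
    have h3 : (2 : ℝ) ^ (62500 * L) ≤ Real.exp ((62500 * L : ℕ) : ℝ) := by
      rw [← Real.exp_one_pow]
      exact pow_le_pow_left₀ (by norm_num) (by linarith [Real.add_one_le_exp (1 : ℝ)]) _
    calc E * 2 ^ (62500 * L) ≤ Real.exp (-((62500 * L : ℕ) : ℝ)) *
          Real.exp ((62500 * L : ℕ) : ℝ) := mul_le_mul h2 h3 (hX0 _).le (Real.exp_pos _).le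
      _ = 1 := by rw [← Real.exp_add]; simp
  -- consequences: `E` times a product of small terms
  have hEsmall : ∀ (y : ℝ) (d : ℕ), 0 ≤ y → 16 + d * L ≤ 62500 * L → y ≤ 2 ^ (d * L) →
      2 ^ 16 * (y * E) ≤ 1 := by
    intro y d hy hd hyd
    have h1 : 2 ^ 16 * y ≤ 2 ^ (62500 * L) :=
      (mul_le_mul_of_nonneg_left hyd (by positivity)).trans (hpow 16 d 62500 hd)
    calc 2 ^ 16 * (y * E) = (2 ^ 16 * y) * E := by ring
      _ ≤ 2 ^ (62500 * L) * E := mul_le_mul_of_nonneg_right h1 hE0.le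
      _ = E * 2 ^ (62500 * L) := by ring
      _ ≤ 1 := hEX
  have hx1 : (k : ℝ) ≤ 2 ^ (1 * L) := by rw [one_mul]; exact hxX
  have hx2 : (k : ℝ) * k ≤ 2 ^ (2 * L) := by
    have := hX1 1
    rw [← this]
    exact mul_le_mul hx1 hxX hx0.le (hX0 _).le
  have hx3 : (k : ℝ) * k * k ≤ 2 ^ (3 * L) := by
    have := hX1 2
    rw [← this]
    exact mul_le_mul hx2 hxX hx0.le (hX0 _).le
  have hc0 : 0 < c := by linarith
  have hcc : c * c ≤ (k : ℝ) * k := mul_le_mul hcx hcx hc0.le hx0.le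
  have e1 : 2 ^ 16 * ((c * c) * E) ≤ 1 :=
    hEsmall (c * c) 2 (by positivity) (by omega) (hcc.trans hx2)
  have e2 : 2 ^ 16 * ((c * ((k : ℝ) * k)) * E) ≤ 1 :=
    hEsmall (c * ((k : ℝ) * k)) 3 (by positivity) (by omega) (by
      refine le_trans ?_ hx3
      have : c * ((k : ℝ) * k) ≤ k * ((k : ℝ) * k) :=
        mul_le_mul_of_nonneg_right hcx (by positivity)
      linarith)
  have e3 : 2 ^ 16 * ((b * c) * E) ≤ 1 :=
    hEsmall (b * c) 2045 (by positivity) (by omega) (by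
      have := hX1 2044
      rw [← this]
      exact mul_le_mul hB (hcx.trans hxX) hc0.le (hX0 _).le)
  -- the geometric term
  obtain ⟨S, hS⟩ : ∃ S : ℝ, S = (5 / 8 : ℝ) ^ (4000 * L) := ⟨_, rfl⟩
  have hS0 : 0 < S := by rw [hS]; positivity
  have hSX : S * 2 ^ (2666 * L) ≤ 1 := by
    have h1 : S ≤ (5 / 8 : ℝ) ^ (3 * (1333 * L)) := by
      rw [hS]
      exact pow_le_pow_of_le_one (by norm_num) (by norm_num) (by omega)
    have h2 : (5 / 8 : ℝ) ^ (3 * (1333 * L)) ≤ (1 / 4) ^ (1333 * L) := by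
      rw [pow_mul]
      exact pow_le_pow_left₀ (by norm_num) (by norm_num) _
    have h3 : (2 : ℝ) ^ (2666 * L) = 4 ^ (1333 * L) := by
      rw [show (4 : ℝ) = 2 ^ 2 by norm_num, ← pow_mul]
      congr 1
      ring
    rw [h3]
    calc S * 4 ^ (1333 * L) ≤ (1 / 4) ^ (1333 * L) * 4 ^ (1333 * L) :=
          mul_le_mul_of_nonneg_right (h1.trans h2) (by positivity)
      _ = 1 := by rw [← mul_pow]; norm_num
  have e4 : 2 ^ 16 * ((b * Real.log k) * S) ≤ 1 := by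
    have h0 : (b : ℝ) * Real.log k ≤ 2 ^ (2045 * L) := by
      have := hX1 2044
      rw [← this]
      exact mul_le_mul hB (hlgx.trans hxX) hlg0 (hX0 _).le
    have h1 : 2 ^ 16 * ((b : ℝ) * Real.log k) ≤ 2 ^ (2666 * L) :=
      (mul_le_mul_of_nonneg_left h0 (by positivity)).trans (hpow 16 2045 2666 (by omega))
    calc 2 ^ 16 * (((b : ℝ) * Real.log k) * S) = (2 ^ 16 * ((b : ℝ) * Real.log k)) * S := by ring
      _ ≤ 2 ^ (2666 * L) * S := mul_le_mul_of_nonneg_right h1 hS0.le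
      _ = S * 2 ^ (2666 * L) := by ring
      _ ≤ 1 := hSX
  have hw24 : 24 * Real.log k ≤ w ^ 7 := by
    have h1 : w ≤ w ^ 6 := le_self_pow₀ (by linarith [show (1 : ℝ) ≤ 10 ^ 8 by norm_num])
      (by norm_num)
    have h2 : 24 * w ≤ w * w :=
      mul_le_mul_of_nonneg_right (by linarith [show (24 : ℝ) ≤ 10 ^ 8 by norm_num]) hw0.le
    calc 24 * Real.log k ≤ 24 * w := by linarith
      _ ≤ w * w := h2
      _ ≤ w * w ^ 6 := mul_le_mul_of_nonneg_left h1 hw0.le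
      _ = w ^ 7 := by ring
  have hw256 : 256 * (c * c) ≤ w ^ 3 := by
    have h1 : 4 * (c * c) ≤ w * w := by
      have : (2 * c) * (2 * c) ≤ w * w := mul_le_mul (by linarith) (by linarith) (by linarith) hw0.le
      linarith
    have h2 : 64 * (w * w) ≤ w * (w * w) :=
      mul_le_mul_of_nonneg_right (by linarith [show (64 : ℝ) ≤ 10 ^ 8 by norm_num])
        (by positivity)
    calc 256 * (c * c) ≤ 64 * (w * w) := by linarith
      _ ≤ w * (w * w) := h2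
      _ = w ^ 3 := by ring
  have hη : (1 : ℝ) / (64 * (k : ℝ) ^ 2) = 1 / (64 * ((k : ℝ) * k)) := by rw [sq]
  have hkk : (0 : ℝ) < (k : ℝ) * k := by positivity
  refine ⟨by omega, hT4, hm1, hb1, by positivity, ?_, ?_, ?_, ?_, ?_, ?_, ?_, ?_⟩
  · -- (a)
    rw [← hc]
    push_cast
    have h1 : c * Real.log k ≤ c * L := mul_le_mul_of_nonneg_left hlgL hc0.le
    have h2 : c * 1 ≤ c * L := mul_le_mul_of_nonneg_left (by linarith) hc0.le
    have h3 : (0 : ℝ) ≤ L * c := by positivity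
    linarith
  · -- (b)
    rw [← hS, hmb']
    have h1 : 4 * (b : ℝ) * Real.log k * (2 * S + 3 / (b * w ^ 7)) =
        8 * ((b * Real.log k) * S) + 12 * Real.log k / w ^ 7 := by
      field_simp
      ring
    rw [h1]
    have h2 : 12 * Real.log k / w ^ 7 ≤ 1 / 2 := by
      rw [div_le_iff₀ (by positivity)]
      linarith
    have h3 : 8 * (((b : ℝ) * Real.log k) * S) ≤ 1 / 2 := by
      have : 0 ≤ ((b : ℝ) * Real.log k) * S := by positivity
      linarith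
    linarith
  · -- (c)
    rw [hη, ← hE, ← hc]
    rw [le_div_iff₀ (by positivity)]
    have h1 : (4 * c * E + 4 * (1 / (64 * ((k : ℝ) * k)))) * (4 * c) =
        16 * ((c * c) * E) + c / (4 * ((k : ℝ) * k)) := by
      field_simp
      ring
    rw [h1]
    have h2 : c / (4 * ((k : ℝ) * k)) ≤ 1 / 2 := by
      rw [div_le_iff₀ (by positivity)]
      have : (1 : ℝ) * k ≤ k * k := mul_le_mul_of_nonneg_right
        (by linarith [show (1 : ℝ) ≤ 10 ^ 8 by norm_num]) hx0.le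
      linarith
    have h3 : 16 * ((c * c) * E) ≤ 1 / 2 := by
      have : 0 ≤ (c * c) * E := by positivity
      linarith
    linarith
  · -- (d)
    rw [hη, ← hE, ← hc]
    have hlm' : (lm : ℝ) ≤ (k : ℝ) * k := by
      rw [← sq]
      exact_mod_cast hlm
    have h1 : (4 * c * E + 4 * (1 / (64 * ((k : ℝ) * k)))) * lm ≤
        (4 * c * E + 4 * (1 / (64 * ((k : ℝ) * k)))) * ((k : ℝ) * k) :=
      mul_le_mul_of_nonneg_left hlm' (by positivity)
    have h2 : (4 * c * E + 4 * (1 / (64 * ((k : ℝ) * k)))) * ((k : ℝ) * k) =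
        4 * ((c * ((k : ℝ) * k)) * E) + 1 / 16 := by
      field_simp
      ring
    have h3 : 0 ≤ (c * ((k : ℝ) * k)) * E := by positivity
    linarith
  · -- (e)
    rw [← hE, ← hc]
    rw [le_div_iff₀ (by positivity)]
    have h1 : (4 * c * E + 32 * (n1 : ℝ) * c ^ 2 / (b : ℝ) ^ 2) * (4 * b) =
        16 * ((b * c) * E) + 128 * n1 * (c * c) / b := by
      field_simp
      ring
    rw [h1]
    have h2 : 128 * n1 * (c * c) / (b : ℝ) ≤ 1 / 2 := by
      rw [div_le_iff₀ (by positivity), hbn']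
      have : (n1 : ℝ) * (256 * (c * c)) ≤ n1 * w ^ 3 :=
        mul_le_mul_of_nonneg_left hw256 (by linarith)
      linarith
    have h3 : 16 * (((b : ℝ) * c) * E) ≤ 1 / 2 := by
      have : 0 ≤ ((b : ℝ) * c) * E := by positivity
      linarith
    linarith
  · -- (f)
    calc 32 * q ≤ k * q := Nat.mul_le_mul_right _ (by omega)
      _ ≤ k * k := Nat.mul_le_mul_left _ hq
      _ = k ^ 2 := by ring
  · -- (g)
    have h1 : 12 * k ≤ b := by
      rw [hbn]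
      have h2 : 12 * k ≤ (2 * k + 3) ^ 3 := by nlinarith [Nat.zero_le (k ^ 3), Nat.zero_le (k ^ 2)]
      calc 12 * k ≤ (2 * k + 3) ^ 3 := h2
        _ = 1 * (2 * k + 3) ^ 3 := by ring
        _ ≤ n1 * (2 * k + 3) ^ 3 := Nat.mul_le_mul_right _ hn1
    calc 12 * q * (2 * T) ≤ 12 * q * k := Nat.mul_le_mul_left _ hT6
      _ = q * (12 * k) := by ring
      _ ≤ k * b := Nat.mul_le_mul hq h1
  · -- (h)
    have h2 : 12 * k ≤ (2 * k + 3) ^ 3 := by nlinarith [Nat.zero_le (k ^ 3), Nat.zero_le (k ^ 2)]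
    have h1 : 12 * k ≤ b := by
      rw [hbn]
      calc 12 * k ≤ (2 * k + 3) ^ 3 := h2
        _ = 1 * (2 * k + 3) ^ 3 := by ring
        _ ≤ n1 * (2 * k + 3) ^ 3 := Nat.mul_le_mul_right _ hn1
    omega

lemma pow_aux1 (x y n e : ℕ) (h : x ≤ y ^ 2) (hy : 1 ≤ y) (hn : 2 * n ≤ e) :
    x ^ n ≤ y ^ e := by
  calc x ^ n ≤ (y ^ 2) ^ n := Nat.pow_le_pow_left h _
    _ = y ^ (2 * n) := by rw [pow_mul]
    _ ≤ y ^ e := Nat.pow_le_pow_right hy hn

lemma pow_aux2 (x a n e : ℕ) (h : x ≤ 2 ^ a) (hn : a * n ≤ e) : x ^ n ≤ 2 ^ e := by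
  calc x ^ n ≤ (2 ^ a) ^ n := Nat.pow_le_pow_left h _
    _ = 2 ^ (a * n) := by rw [pow_mul]
    _ ≤ 2 ^ e := Nat.pow_le_pow_right (by norm_num) hn

lemma pow_aux3 (x a b c : ℕ) (h : a = b + c) : x ^ a = x ^ b * x ^ c := by
  rw [h, pow_add]

lemma ph_ge (K : ℕ) : 2 * 2010 ≤ ph K := by
  unfold ph
  generalize Nat.log 2 (pL K) = y
  omega

lemma lm_le (k : ℕ) (hk : 10 ^ 8 ≤ k) : max (2 * pH k) (pn k) ≤ k ^ 2 := by
  have h1 : Nat.log 2 k ≤ k := Nat.log_le_self _ _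
  have h10 : 10 ≤ k := le_trans (by norm_num) hk
  have h3 : 1000000 ≤ k := le_trans (by norm_num) hk
  clear hk
  unfold pH pn
  generalize Nat.log 2 k = y at h1 ⊢
  have h2 : 2 * (160000 * (y + 10)) ≤ 1000000 * k := by linarith
  have h2' : 40000 * (y + 1) ≤ 1000000 * k := by linarith
  have h4 : 1000000 * k ≤ k ^ 2 := by
    rw [sq]
    exact Nat.mul_le_mul_right _ h3
  exact max_le (h2.trans h4) (h2'.trans h4)

lemma one_le_aux (x n : ℕ) (h : 0 < x) : 1 ≤ x ^ n := Nat.one_le_pow _ _ h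

lemma pow_aux4 (k L n e : ℕ) (h : k < 2 ^ L) (hn : (L + 2) * n ≤ e) :
    (2 * k + 3) ^ n ≤ 2 ^ e := by
  refine pow_aux2 _ (L + 2) _ _ ?_ hn
  rw [pow_add]
  omega

lemma mul_aux (L : ℕ) (h : 100 ≤ L) : (L + 2) * 2003 ≤ 2044 * L := by omega

theorem numl : NumlStmt := by
  refine ⟨2 ^ 100, ?_⟩
  intro K k q hK hk hkK hq
  obtain ⟨L, hLdef⟩ : ∃ L, L = pL K := ⟨_, rfl⟩
  rw [← hLdef] at hk hq ⊢
  have hL : 100 ≤ L := by
    have h1 : 100 ≤ Nat.log 2 K := Nat.le_log_of_pow_le (by norm_num) hK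
    rw [hLdef]
    unfold pL
    omega
  have hKL : K < 2 ^ L := by
    rw [hLdef]
    exact Nat.lt_pow_succ_log_self (by norm_num) K
  have hkL : k < 2 ^ L := lt_of_le_of_lt hkK hKL
  have hk5 : L ^ 5 ≤ k := by
    refine le_trans (Nat.pow_le_pow_right ?_ (by norm_num)) hk
    clear hk
    omega
  clear hk
  have hL4 : 10 ^ 8 ≤ L ^ 4 := by
    calc 10 ^ 8 = 100 ^ 4 := by norm_num
      _ ≤ L ^ 4 := Nat.pow_le_pow_left hL 4
  have hk45 : L ^ 4 * L ≤ k := by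
    calc L ^ 4 * L = L ^ 5 := by ring
      _ ≤ k := hk5
  have hk4 : L ^ 4 ≤ k := le_trans (Nat.le_mul_of_pos_right _ (by omega)) hk45
  have hk8 : 10 ^ 8 ≤ k := hL4.trans hk4
  have hTdef : pT K k = k / (10 ^ 6 * L) := by
    rw [hLdef]
    rfl
  have hT4 : 4 ≤ pT K k := by
    rw [hTdef, Nat.le_div_iff_mul_le (by omega)]
    calc 4 * (10 ^ 6 * L) = (4 * 10 ^ 6) * L := by ring
      _ ≤ L ^ 4 * L := Nat.mul_le_mul_right _ (le_trans (by norm_num) hL4)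
      _ ≤ k := hk45
  have hT : pT K k * (10 ^ 6 * L) ≤ k := by
    rw [hTdef]
    exact Nat.div_mul_le_self _ _
  have hT6 : pT K k * 10 ^ 6 ≤ k :=
    le_trans (Nat.mul_le_mul_left _ (by omega)) hT
  refine ⟨by omega, ?_, ?_⟩
  · have h1 : 2 * k + 3 ≤ (k / 8) ^ 2 := by
      have h2 : k ≤ 8 * (k / 8) + 7 := by omega
      have h3 : 1000 ≤ k / 8 := by omega
      nlinarith
    have h4 : 1 ≤ k / 8 := by omega
    exact pow_aux1 _ _ _ _ h1 h4 (ph_ge K)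
  · have h0 : 0 < 2 * k + 3 := by omega
    exact numl_aux k (pT K k) L _ _ _ _ q hL hk8 hkL hT4 hT (pow_aux3 _ _ _ _ (by norm_num))
      (pow_aux3 _ _ _ _ (by norm_num)) (one_le_aux _ _ h0) (pow_aux4 _ _ _ _ hkL (mul_aux L hL))
      (lm_le k hk8) (hq.trans hk4)

end Pool.Agent.LLG.H73
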